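import Pool.Agent.K4W.StmtsF
import Pool.Agent.Helper48_VM5.Cnu

set_option autoImplicit false

open scoped Classical

namespace Pool.Agent.K4W.H82

open Pool.Agent.K4W
open Pool.Agent.VM (Nr)

/-- integers `m` for which `48 t m` is close to an integer, version with integers -/
theorem c48z (t η : ℝ) (a : ℤ) (Q X : ℕ) (hQ : 1 ≤ Q) (hg : Int.gcd a (Q : ℤ) = 1)
    (ht : |t - (a : ℝ) / (Q : ℝ)| ≤ 1 / (Q : ℝ) ^ 2) (hη : 0 ≤ η) :
    (((Finset.Icc (-(X : ℤ)) (X : ℤ)).filter
      (fun m : ℤ => Nr (48 * t * (m : ℝ)) η)).card : ℝ) ≤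
      768 * ((X : ℝ) / (Q : ℝ) + 1) * (η * (Q : ℝ) + 1) := by
  have h := Pool.Agent.VM5.H48.cnu t η a Q (48 * X) hQ hg ht hη
  have hfin : Finite {m : ℤ // |m| ≤ ((48 * X : ℕ) : ℤ) ∧ Nr (t * (m : ℝ)) η} := by
    apply Set.Finite.to_subtype
    apply (Set.finite_Icc (-((48 * X : ℕ) : ℤ)) ((48 * X : ℕ) : ℤ)).subset
    intro m hm
    exact abs_le.mp hm.1
  have hcard : ((Finset.Icc (-(X : ℤ)) (X : ℤ)).filter
      (fun m : ℤ => Nr (48 * t * (m : ℝ)) η)).card ≤
      Nat.card {m : ℤ // |m| ≤ ((48 * X : ℕ) : ℤ) ∧ Nr (t * (m : ℝ)) η} := by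
    have e : ((Finset.Icc (-(X : ℤ)) (X : ℤ)).filter
        (fun m : ℤ => Nr (48 * t * (m : ℝ)) η)).card =
        Nat.card ((Finset.Icc (-(X : ℤ)) (X : ℤ)).filter
          (fun m : ℤ => Nr (48 * t * (m : ℝ)) η)) := by
      rw [Nat.card_eq_fintype_card, Fintype.card_coe]
    rw [e]
    refine Nat.card_le_card_of_injective
      (fun m => ⟨48 * (m : ℤ), ?_, ?_⟩) ?_
    · have hm := (Finset.mem_filter.mp m.2).1
      rw [Finset.mem_Icc] at hm
      rw [abs_le]
      push_cast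
      constructor
      · linarith [hm.1]
      · linarith [hm.2]
    · have hm := (Finset.mem_filter.mp m.2).2
      have e2 : t * ((48 * (m : ℤ) : ℤ) : ℝ) = 48 * t * ((m : ℤ) : ℝ) := by push_cast; ring
      rw [e2]
      exact hm
    · intro m m' hmm
      have h1 := congrArg Subtype.val hmm
      simp only at h1
      apply Subtype.ext
      linarith
  have hQ0 : (0 : ℝ) < Q := by exact_mod_cast hQ
  have hX0 : (0 : ℝ) ≤ (X : ℝ) / Q := by positivity
  have h2 : (0 : ℝ) ≤ η * Q + 1 := by positivity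
  calc (((Finset.Icc (-(X : ℤ)) (X : ℤ)).filter
      (fun m : ℤ => Nr (48 * t * (m : ℝ)) η)).card : ℝ)
      ≤ (Nat.card {m : ℤ // |m| ≤ ((48 * X : ℕ) : ℤ) ∧ Nr (t * (m : ℝ)) η} : ℝ) := by
        exact_mod_cast hcard
    _ ≤ 16 * (((48 * X : ℕ) : ℝ) / (Q : ℝ) + 1) * (η * (Q : ℝ) + 1) := h
    _ ≤ 768 * ((X : ℝ) / (Q : ℝ) + 1) * (η * (Q : ℝ) + 1) := by
        refine mul_le_mul_of_nonneg_right ?_ h2
        push_cast
        have : (48 * (X : ℝ)) / (Q : ℝ) = 48 * ((X : ℝ) / Q) := by ring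
        rw [this]
        linarith

/-- a filter on the coerced finite set of reals has the same number of elements -/
theorem card_filter_coe (s : Finset ℤ) (p : ℝ → Prop) :
    (Finset.filter p (do let a ← s; pure ((a : ℤ) : ℝ))).card =
      (s.filter (fun m : ℤ => p (m : ℝ))).card := by
  have e : (do let a ← s; pure ((a : ℤ) : ℝ) : Finset ℝ) = s.image (fun a : ℤ => (a : ℝ)) := by
    ext x
    simp [Finset.bind_def, Finset.mem_sup, eq_comm]
  rw [e, Finset.filter_image, Finset.card_image_of_injective _ Int.cast_injective]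

/-- **C48**: integers `m` for which `48 t m` is close to an integer. -/
theorem c48 : C48Stmt := by
  intro t η a Q X hQ hg ht hη
  exact c48z t η a Q X hQ hg ht hη

end Pool.Agent.K4W.H82
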