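import Pool.Agent.K4W.StmtsM

set_option autoImplicit false

namespace Pool.Agent.K4W.H82

open Pool.Agent.K4W

/-- **MFC**: one fibre with at least two elements. -/
theorem mfc (hMCO : McoStmt) (hMPB : MpbStmt) : MfcStmt := by
  classical
  intro n M q B s c A₁ A₂ K hq hs hc hA1 hA2 hK hB
  obtain ⟨i0, hi0, i1, hi1, hne⟩ := Finset.one_lt_card.mp (by omega : 1 < B.card)
  set T : Finset ℤ := Tm M q with hT
  set C : Finset (Fin n) := (B.erase i0).erase i1 with hC
  have hi1' : i1 ∈ B.erase i0 := Finset.mem_erase.mpr ⟨hne.symm, hi1⟩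
  have hCcard : C.card = B.card - 2 := by
    rw [hC, Finset.card_erase_of_mem hi1', Finset.card_erase_of_mem hi0]; omega
  have hmemC : ∀ i, i ∈ C ↔ i ≠ i1 ∧ i ≠ i0 ∧ i ∈ B := by
    intro i; rw [hC, Finset.mem_erase, Finset.mem_erase]
  have hsum : ∀ (g : Fin n → ℤ), ∑ i ∈ B, g i = g i1 + g i0 + ∑ i ∈ C, g i := by
    intro g
    rw [← Finset.add_sum_erase B g hi0, ← Finset.add_sum_erase (B.erase i0) g hi1']
    ring
  have hprod : ∀ (g : Fin n → ℝ), ∏ i ∈ B, g i = g i1 * g i0 * ∏ i ∈ C, g i := by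
    intro g
    rw [← Finset.mul_prod_erase B g hi0, ← Finset.mul_prod_erase (B.erase i0) g hi1']
    ring
  set t : Fin n → Finset ℤ := fun i => if i ∈ B then T else {0} with ht
  set F : (Fin n → ℤ) → ℝ := fun m =>
    (if (q : ℤ) ∣ ∑ i ∈ B, s i * m i ^ 2 then ∏ i ∈ B, c (m i) else 0) with hF
  have ht0 : t i0 = T := by simp only [ht, hi0, if_true]
  have ht1 : Function.update t i0 {0} i1 = T := by
    rw [Function.update_of_ne hne.symm]; simp only [ht, hi1, if_true]
  have key : ∑ m ∈ Fintype.piFinset t, F m =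
      ∑ m ∈ Fintype.piFinset (Function.update (Function.update t i0 {0}) i1 {0}),
        ∑ y ∈ T, ∑ x ∈ T, F (Function.update (Function.update m i1 y) i0 x) := by
    rw [hMCO n t i0 F, ht0,
      hMCO n (Function.update t i0 {0}) i1
        (fun m => ∑ x ∈ T, F (Function.update m i0 x)), ht1]
  have hA2' : 0 ≤ A₂ := le_trans (Finset.sum_nonneg (fun m _ => sq_nonneg _)) hA2
  have hK' : 0 ≤ K := le_trans (by positivity) hK
  show ∑ m ∈ Fintype.piFinset t, F m ≤ A₁ ^ (B.card - 2) * (A₂ * K)
  rw [key]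
  have hup1 : ∀ (m : Fin n → ℤ) (x y : ℤ),
      Function.update (Function.update m i1 y) i0 x i1 = y := by
    intro m x y
    rw [Function.update_of_ne hne.symm, Function.update_self]
  have hup0 : ∀ (m : Fin n → ℤ) (x y : ℤ),
      Function.update (Function.update m i1 y) i0 x i0 = x := by
    intro m x y
    rw [Function.update_self]
  have hupC : ∀ (m : Fin n → ℤ) (x y : ℤ), ∀ i ∈ C,
      Function.update (Function.update m i1 y) i0 x i = m i := by
    intro m x y i hi
    have h := (hmemC i).mp hi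
    rw [Function.update_of_ne h.2.1, Function.update_of_ne h.1]
  have inner : ∀ m : Fin n → ℤ,
      ∑ y ∈ T, ∑ x ∈ T, F (Function.update (Function.update m i1 y) i0 x) ≤
        (∏ i ∈ C, c (m i)) * (A₂ * K) := by
    intro m
    have hP : 0 ≤ ∏ i ∈ C, c (m i) := Finset.prod_nonneg (fun i _ => hc _)
    have h1 := hMPB M q (s i1) (s i0) (∑ i ∈ C, s i * m i ^ 2) c A₂ K hq (hs i1) (hs i0) hc
      hA2 hK
    have h2 : ∑ y ∈ T, ∑ x ∈ T, F (Function.update (Function.update m i1 y) i0 x) =
        (∏ i ∈ C, c (m i)) * ∑ y ∈ T, ∑ x ∈ T,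
          (if (q : ℤ) ∣ s i1 * y ^ 2 + s i0 * x ^ 2 + ∑ i ∈ C, s i * m i ^ 2
            then c y * c x else 0) := by
      rw [Finset.mul_sum]
      refine Finset.sum_congr rfl (fun y _ => ?_)
      rw [Finset.mul_sum]
      refine Finset.sum_congr rfl (fun x _ => ?_)
      simp only [hF]
      rw [hsum, hprod, hup1, hup0]
      have e1 : ∑ i ∈ C, s i * Function.update (Function.update m i1 y) i0 x i ^ 2 =
          ∑ i ∈ C, s i * m i ^ 2 :=
        Finset.sum_congr rfl (fun i hi => by rw [hupC m x y i hi])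
      have e2 : ∏ i ∈ C, c (Function.update (Function.update m i1 y) i0 x i) =
          ∏ i ∈ C, c (m i) :=
        Finset.prod_congr rfl (fun i hi => by rw [hupC m x y i hi])
      rw [e1, e2]
      split_ifs
      · ring
      · ring
    rw [h2]
    exact mul_le_mul_of_nonneg_left h1 hP
  refine le_trans (Finset.sum_le_sum (fun m _ => inner m)) ?_
  rw [← Finset.sum_mul]
  refine mul_le_mul_of_nonneg_right ?_ (mul_nonneg hA2' hK')
  set t2 := Function.update (Function.update t i0 {0}) i1 {0} with ht2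
  have ht2C : ∀ i ∈ C, t2 i = T := by
    intro i hi
    have h := (hmemC i).mp hi
    rw [ht2, Function.update_of_ne h.1, Function.update_of_ne h.2.1]
    simp only [ht, h.2.2, if_true]
  have ht2N : ∀ i, i ∉ C → t2 i = {0} := by
    intro i hi
    rw [ht2]
    by_cases h1 : i = i1
    · subst h1; rw [Function.update_self]
    · rw [Function.update_of_ne h1]
      by_cases h0 : i = i0
      · subst h0; rw [Function.update_self]
      · rw [Function.update_of_ne h0]
        have hnB : i ∉ B := fun hB' => hi ((hmemC i).mpr ⟨h1, h0, hB'⟩)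
        simp only [ht, hnB, if_false]
  have e3 : ∑ m ∈ Fintype.piFinset t2, ∏ i ∈ C, c (m i) =
      ∏ i, ∑ x ∈ t2 i, (if i ∈ C then c x else 1) := by
    rw [Finset.prod_univ_sum]
    refine Finset.sum_congr rfl (fun m _ => ?_)
    rw [Finset.prod_ite_mem, Finset.univ_inter]
  have e4 : ∏ i, ∑ x ∈ t2 i, (if i ∈ C then c x else 1) = (∑ x ∈ T, c x) ^ (B.card - 2) := by
    rw [← hCcard, ← Finset.prod_const]
    have : ∀ i : Fin n, (∑ x ∈ t2 i, (if i ∈ C then c x else 1) : ℝ) =
        if i ∈ C then ∑ x ∈ T, c x else 1 := by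
      intro i
      by_cases hi : i ∈ C
      · rw [ht2C i hi]; simp only [hi, if_true]
      · rw [ht2N i hi]; simp only [hi, if_false, Finset.sum_singleton]
    rw [Finset.prod_congr rfl (fun i _ => this i), Finset.prod_ite_mem, Finset.univ_inter]
  rw [e3, e4]
  exact pow_le_pow_left₀ (Finset.sum_nonneg (fun x _ => hc x)) hA1 _

end Pool.Agent.K4W.H82
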